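import Mathlib

/-!
# Extensions of simple `Z*`-algebras are `Z*`-algebras

Let `0 → B → A → C → 0` be an extension of C*-algebras, `B` a `Z*`-algebra and `C` a simple
`Z*`-algebra.  Then `A` is a `Z*`-algebra.

Idea.  Let `a ≥ 0` in `A` not be a zero divisor.  Its image in `C` is a zero divisor, so there is a
positive `e` in `A`, not in `B`, with `e a` in `B`.  As `C` is simple, `a` is a limit of elements
`∑ r e s + j` with `j` in `B`.  A countable subset of `B` is annihilated by a nonzero `y` in `B`; let
`y` annihilate all the elements `r e a` and all the `j`.  As `a` is not a zero divisor, `y r e a = 0`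
implies `y r e = 0`.  So `y a = 0`, a contradiction.
-/

set_option autoImplicit false

namespace Pool.Agent.Results.MP_6f16c7_an.ZStarExtensions

/-- `a` is a (left or right) zero divisor. -/
def IsZeroDivisor {A : Type*} [NonUnitalCStarAlgebra A] (a : A) : Prop :=
  ∃ b : A, b ≠ 0 ∧ (a * b = 0 ∨ b * a = 0)

/-- `A` is a `Z*`-algebra: every positive element (that is, every element of the form `x* x`) is a
zero divisor. -/
def IsZStar (A : Type*) [NonUnitalCStarAlgebra A] : Prop :=
  ∀ x : A, IsZeroDivisor (star x * x)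

/-- `A` is a simple C*-algebra: it is nonzero and has no closed two-sided ideals other than `0` and
`A`. -/
def IsSimpleCStar (A : Type*) [NonUnitalCStarAlgebra A] : Prop :=
  Nontrivial A ∧ ∀ I : TwoSidedIdeal A, IsClosed (I : Set A) → I = ⊥ ∨ I = ⊤

/-- A countable family in a `Z*`-algebra has a common nonzero left annihilator. -/
theorem exists_annihilator {B : Type*} [NonUnitalCStarAlgebra B] (hB : IsZStar B) (z : ℕ → B) :
    ∃ y : B, y ≠ 0 ∧ ∀ n, y * z n = 0 := by
  let _ : PartialOrder B := CStarAlgebra.spectralOrder B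
  have _ : StarOrderedRing B := CStarAlgebra.spectralOrderedRing B
  -- the weights
  set w : ℕ → ℝ := fun n => (1 / 2) ^ n / (1 + ‖z n‖ ^ 2) with hw
  have hwpos : ∀ n, 0 < w n := fun n => by positivity
  set f : ℕ → B := fun n => (w n : ℝ) • (z n * star (z n)) with hf
  have hfn : ∀ n, ‖f n‖ ≤ (1 / 2) ^ n := by
    intro n
    rw [hf]
    simp only
    rw [norm_smul, CStarRing.norm_self_mul_star, Real.norm_of_nonneg (hwpos n).le, hw]
    simp only
    rw [div_mul_eq_mul_div, div_le_iff₀ (by positivity)]
    gcongr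
    nlinarith [norm_nonneg (z n)]
  have hsum : Summable f :=
    Summable.of_norm_bounded (summable_geometric_of_lt_one (by norm_num) (by norm_num)) hfn
  have hf0 : ∀ n, 0 ≤ f n := fun n => smul_nonneg (hwpos n).le (mul_star_self_nonneg (z n))
  have hh0 : 0 ≤ ∑' n, f n := tsum_nonneg hf0
  obtain ⟨x, hx⟩ := CStarAlgebra.nonneg_iff_eq_star_mul_self.1 hh0
  have hhs : IsSelfAdjoint (∑' n, f n) := .of_nonneg hh0
  obtain ⟨b, hb0, hb⟩ := hB x
  rw [← hx] at hb
  -- an element y with y h = 0
  obtain ⟨y, hy0, hy⟩ : ∃ y : B, y ≠ 0 ∧ y * (∑' n, f n) = 0 := by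
    rcases hb with hb | hb
    · refine ⟨star b, by simpa using hb0, ?_⟩
      have := congrArg star hb
      rwa [star_mul, hhs.star_eq, star_zero] at this
    · exact ⟨b, hb0, hb⟩
  refine ⟨y, hy0, fun n => ?_⟩
  have h1 : f n ≤ ∑' n, f n := hsum.le_tsum n (fun m _ => hf0 m)
  have h2 : y * f n * star y ≤ y * (∑' n, f n) * star y := star_right_conjugate_le_conjugate h1 y
  rw [hy, zero_mul] at h2
  have h3 : 0 ≤ y * f n * star y := star_right_conjugate_nonneg (hf0 n) y
  have h4 : y * f n * star y = 0 := le_antisymm h2 h3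
  have h5 : y * f n * star y = w n • ((y * z n) * star (y * z n)) := by
    rw [hf]
    simp only [star_mul, mul_smul_comm, smul_mul_assoc, mul_assoc]
  rw [h5] at h4
  have h6 : (y * z n) * star (y * z n) = 0 := by
    rcases smul_eq_zero.1 h4 with h | h
    · exact absurd h (hwpos n).ne'
    · exact h
  exact CStarRing.mul_star_self_eq_zero_iff _ |>.1 h6

/-- In a simple C*-algebra every element is a limit of sums `∑ r c s`, `c` a fixed nonzero
element. -/
theorem simple_approx {C : Type*} [NonUnitalCStarAlgebra C] (hC : IsSimpleCStar C) {c : C}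
    (hc : c ≠ 0) (x : C) :
    x ∈ closure ((AddSubgroup.closure {z : C | ∃ r s : C, z = r * c * s} : AddSubgroup C) :
      Set C) := by
  set S : AddSubgroup C := AddSubgroup.closure {z : C | ∃ r s : C, z = r * c * s} with hS
  have hl : ∀ x y : C, y ∈ S → x * y ∈ S := by
    intro x y hy
    induction hy using AddSubgroup.closure_induction with
    | mem y hy =>
      obtain ⟨r, s, rfl⟩ := hy
      exact AddSubgroup.subset_closure ⟨x * r, s, by simp only [mul_assoc]⟩
    | zero => rw [mul_zero]; exact S.zero_mem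
    | add y z _ _ hy hz => rw [mul_add]; exact S.add_mem hy hz
    | neg y _ hy => rw [mul_neg]; exact S.neg_mem hy
  have hr : ∀ x y : C, y ∈ S → y * x ∈ S := by
    intro x y hy
    induction hy using AddSubgroup.closure_induction with
    | mem y hy =>
      obtain ⟨r, s, rfl⟩ := hy
      exact AddSubgroup.subset_closure ⟨r, s * x, by simp only [mul_assoc]⟩
    | zero => rw [zero_mul]; exact S.zero_mem
    | add y z _ _ hy hz => rw [add_mul]; exact S.add_mem hy hz
    | neg y _ hy => rw [neg_mul]; exact S.neg_mem hy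
  let I : TwoSidedIdeal C := TwoSidedIdeal.mk' (S.topologicalClosure : Set C)
    S.topologicalClosure.zero_mem
    (fun {a b} ha hb => S.topologicalClosure.add_mem ha hb)
    (fun {a} ha => S.topologicalClosure.neg_mem ha)
    (fun {a b} hb => by
      refine map_mem_closure (f := fun y => a * y) (by fun_prop) hb ?_
      intro y hy
      exact hl a y hy)
    (fun {a b} ha => by
      refine map_mem_closure (f := fun y => y * b) (by fun_prop) ha ?_
      intro y hy
      exact hr b y hy)
  have hI : (I : Set C) = (S.topologicalClosure : Set C) := by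
    ext y
    exact TwoSidedIdeal.mem_mk' _ _ _ _ _ _ _
  have hcl : IsClosed (I : Set C) := by
    rw [hI]
    exact S.isClosed_topologicalClosure
  rcases hC.2 I hcl with h | h
  · exfalso
    have h1 : star c * c * star c ∈ I := by
      have : star c * c * star c ∈ (I : Set C) := by
        rw [hI]
        exact S.le_topologicalClosure (AddSubgroup.subset_closure ⟨star c, star c, rfl⟩)
      exact this
    rw [h, TwoSidedIdeal.mem_bot] at h1
    have h2 : (star c * c) * star (star c * c) = 0 := by
      rw [star_mul, star_star, ← mul_assoc, h1, zero_mul]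
    rw [CStarRing.mul_star_self_eq_zero_iff, CStarRing.star_mul_self_eq_zero_iff] at h2
    exact hc h2
  · have : x ∈ (I : Set C) := by
      rw [h]
      trivial
    rw [hI] at this
    exact this

/-- **Theorem.** Let `0 → B → A → C → 0` be an extension of C*-algebras.  If `B` is a `Z*`-algebra
and `C` is a simple `Z*`-algebra, then `A` is a `Z*`-algebra. -/
theorem result {A B C : Type*} [NonUnitalCStarAlgebra A] [NonUnitalCStarAlgebra B]
    [NonUnitalCStarAlgebra C] (i : B →⋆ₙₐ[ℂ] A) (q : A →⋆ₙₐ[ℂ] C)
    (hi : Function.Injective i) (hq : Function.Surjective q)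
    (hex : ∀ a : A, q a = 0 ↔ ∃ b : B, i b = a)
    (hB : IsZStar B) (hC : IsZStar C) (hCs : IsSimpleCStar C) : IsZStar A := by
  intro x
  by_contra hnz
  set a : A := star x * x with ha
  have has : IsSelfAdjoint a := .star_mul_self x
  have hl : ∀ b : A, b * a = 0 → b = 0 := by
    intro b hb
    by_contra hb0
    exact hnz ⟨b, hb0, Or.inr hb⟩
  -- the image of a is a zero divisor
  obtain ⟨c', hc'0, hc'⟩ := hC (q x)
  have hqa : star (q x) * q x = q a := by rw [ha, map_mul, map_star]
  rw [hqa] at hc'
  have hqas : star (q a) = q a := by rw [← map_star, has.star_eq]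
  obtain ⟨c'', hc0, hc⟩ : ∃ c'' : C, c'' ≠ 0 ∧ c'' * q a = 0 := by
    rcases hc' with h | h
    · refine ⟨star c', by simpa using hc'0, ?_⟩
      have := congrArg star h
      rwa [star_mul, hqas, star_zero] at this
    · exact ⟨c', hc'0, h⟩
  obtain ⟨e, he⟩ := hq c''
  -- open mapping constant
  let Q : A →L[ℂ] C :=
    { toLinearMap := (q : A →ₗ[ℂ] C)
      cont := by
        have : Continuous q := by
          refine AddMonoidHomClass.continuous_of_bound q 1 fun x => ?_
          rw [one_mul]
          exact NonUnitalStarAlgHom.norm_apply_le q x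
        exact this }
  have hQ : ∀ x, Q x = q x := fun x => rfl
  obtain ⟨K, hK0, hK⟩ := Q.exists_preimage_norm_le (fun c => hq c)
  -- approximation of a
  have happ : ∀ n : ℕ, ∃ (k : ℕ) (r s : Fin k → A) (j : A), q j = 0 ∧
      ‖a - ∑ l, r l * e * s l - j‖ ≤ K * (1 / ((n : ℝ) + 1)) := by
    intro n
    have h1 := simple_approx hCs hc0 (q a)
    rw [Metric.mem_closure_iff] at h1
    obtain ⟨t, ht, hd⟩ := h1 (1 / ((n : ℝ) + 1)) (by positivity)
    have h2 : ∀ t ∈ AddSubgroup.closure {z : C | ∃ r s : C, z = r * c'' * s},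
        ∃ (k : ℕ) (r s : Fin k → A), t = q (∑ l, r l * e * s l) := by
      intro t ht
      induction ht using AddSubgroup.closure_induction with
      | mem y hy =>
        obtain ⟨r, s, rfl⟩ := hy
        obtain ⟨r', rfl⟩ := hq r
        obtain ⟨s', rfl⟩ := hq s
        refine ⟨1, fun _ => r', fun _ => s', ?_⟩
        simp [he]
      | zero => exact ⟨0, Fin.elim0, Fin.elim0, by simp⟩
      | add y z _ _ hy hz =>
        obtain ⟨k, r, s, rfl⟩ := hy
        obtain ⟨k', r', s', rfl⟩ := hz
        refine ⟨k + k', Fin.append r r', Fin.append s s', ?_⟩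
        rw [Fin.sum_univ_add, map_add]
        simp
      | neg y _ hy =>
        obtain ⟨k, r, s, rfl⟩ := hy
        refine ⟨k, fun l => - r l, s, ?_⟩
        rw [← map_neg]
        simp
    obtain ⟨k, r, s, rfl⟩ := h2 t ht
    obtain ⟨v, hv, hvn⟩ := hK (q a - q (∑ l, r l * e * s l))
    refine ⟨k, r, s, a - (∑ l, r l * e * s l) - v, ?_, ?_⟩
    · rw [map_sub, map_sub, ← hQ v, hv, sub_self]
    · have : a - ∑ l, r l * e * s l - (a - (∑ l, r l * e * s l) - v) = v := by abel
      rw [this]
      refine hvn.trans ?_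
      rw [dist_eq_norm] at hd
      gcongr
  choose k r s j hj hn using happ
  -- the countable family in B
  have hre : ∀ (p : ℕ) (l : Fin (k p)), ∃ b : B, i b = r p l * e * a := by
    intro p l
    rw [← hex, map_mul, map_mul, he, mul_assoc, hc, mul_zero]
  have hjb : ∀ p : ℕ, ∃ b : B, i b = j p := fun p => (hex _).1 (hj p)
  choose u hu using hre
  choose v hv using hjb
  -- enumerate
  have hcount : Countable ((Σ p : ℕ, Fin (k p)) ⊕ ℕ) := inferInstance
  obtain ⟨g, hg⟩ := exists_surjective_nat ((Σ p : ℕ, Fin (k p)) ⊕ ℕ)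
  obtain ⟨y, hy0, hy⟩ := exists_annihilator hB
    (fun n => Sum.elim (fun pl : (Σ p : ℕ, Fin (k p)) => u pl.1 pl.2) v (g n))
  have hyu : ∀ p l, y * u p l = 0 := by
    intro p l
    obtain ⟨n, hn⟩ := hg (Sum.inl ⟨p, l⟩)
    have := hy n
    rwa [hn] at this
  have hyv : ∀ p, y * v p = 0 := by
    intro p
    obtain ⟨n, hn⟩ := hg (Sum.inr p)
    have := hy n
    rwa [hn] at this
  have h1 : ∀ p l, i y * r p l * e = 0 := by
    intro p l
    apply hl
    have : i (y * u p l) = 0 := by rw [hyu, map_zero]
    rw [map_mul, hu] at this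
    simpa only [mul_assoc] using this
  have h2 : ∀ p, i y * j p = 0 := by
    intro p
    rw [← hv, ← map_mul, hyv, map_zero]
  have h3 : ∀ p : ℕ, ‖i y * a‖ ≤ ‖i y‖ * (K * (1 / ((p : ℝ) + 1))) := by
    intro p
    have h4 : i y * a = i y * (a - ∑ l, r p l * e * s p l - j p) := by
      rw [mul_sub, mul_sub, h2, sub_zero, Finset.mul_sum]
      have : ∑ l, i y * (r p l * e * s p l) = 0 := by
        refine Finset.sum_eq_zero fun l _ => ?_
        rw [← mul_assoc, ← mul_assoc, h1, zero_mul]
      rw [this, sub_zero]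
    rw [h4]
    exact (norm_mul_le _ _).trans (by gcongr; exact hn p)
  have h5 : i y * a = 0 := by
    rw [← norm_le_zero_iff]
    have hlim : Filter.Tendsto (fun p : ℕ => ‖i y‖ * (K * (1 / ((p : ℝ) + 1)))) Filter.atTop
        (nhds (‖i y‖ * (K * 0))) :=
      (tendsto_one_div_add_atTop_nhds_zero_nat.const_mul K).const_mul _
    rw [mul_zero, mul_zero] at hlim
    exact ge_of_tendsto' hlim h3
  have h6 : i y = 0 := hl _ h5
  exact hy0 (hi (by rw [h6, map_zero]))

end Pool.Agent.Results.MP_6f16c7_an.ZStarExtensions
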